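import Pool.Agent.Helper21.W4.St4

set_option autoImplicit false

namespace Pool.Agent.Helper2.W4

open Pool.Agent.Helper21.W4 Finset

theorem nf_mul (A W : ℕ) (hA : 1 ≤ A) :
    0 ≤ nf A W ∧ nf A W ≤ 1 ∧ 3 * nf A W ≤ nf A W * ((W : ℤ) + 2) := by
  unfold nf
  split_ifs with h
  · omega
  · omega

theorem fin_zv (hNnf : StNnf) (hNstar : StNstar) (hNzv : StNzv) (x : Dat) (s : ℕ) (hB : Base x)
    (hY : Yo x s)
    (hg : Good (3 - (((W1 x : ℤ) + W2 x + W3 x) - s) + X0 x)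
      ((((W1 x : ℤ) + W2 x + W3 x) - s) + 1 + x.a12 + x.a13 + x.a23 + x.bk))
    (h2 : 2 ≤ ((((W1 x : ℤ) + W2 x + W3 x) - s) + 1 + x.a12 + x.a13 + x.a23 + x.bk)) :
    TgtN x := by
  obtain ⟨h3, h4⟩ := hNzv x s hB hY
  obtain ⟨n1, n1', n1''⟩ := nf_mul x.A1 (W1 x) hB.A1
  obtain ⟨n2, n2', n2''⟩ := nf_mul x.A2 (W2 x) hB.A2
  obtain ⟨n3, n3', n3''⟩ := nf_mul x.A3 (W3 x) hB.A3
  refine hNstar x hB (hNnf _ _ _ _ (nf x.A1 (W1 x) + nf x.A2 (W2 x) + nf x.A3 (W3 x)) hg h2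
    (by linarith) (by linarith) ?_ ?_)
  · linarith
  · linarith

theorem ksq {k e a : ℕ} (h1 : k ≤ e) (h2 : e * e + e ≤ 2 * a) :
    (k : ℤ) * k + k ≤ 2 * (a : ℤ) := by
  have h3 : k * k ≤ e * e := Nat.mul_le_mul h1 h1
  have h4 : k * k + k ≤ 2 * a := by omega
  exact_mod_cast h4

theorem a_ge2 {w w' e a : ℕ} (hw : 2 ≤ w) (hw' : 1 ≤ w') (he : 1 ≤ e)
    (h1 : 2 * (w + w') + e * e ≤ 2 * a + 3 * e) (h2 : e * e + e ≤ 2 * a) : 2 ≤ a := by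
  rcases Nat.lt_or_ge e 2 with h | h
  · have : e = 1 := by omega
    subst this
    omega
  · have : 2 * 2 ≤ e * e := Nat.mul_le_mul h h
    omega

theorem hF2 : StF2 := by
  intro hNmono hNnf hNstar hNzv hN x s hB hY hT hs
  have hu1 := hT.u1
  have hu2 := hT.u2
  have hu3 := hT.u3
  have b12 := hB.d12
  have b13 := hB.d13
  have b21 := hB.d21
  have b23 := hB.d23
  have b31 := hB.d31
  have b32 := hB.d32
  have c12 := hB.k12
  have c13 := hB.k13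
  have c23 := hB.k23
  have e12 := hB.e12
  have e13 := hB.e13
  have e23 := hB.e23
  have g1 : x.w12 + x.d13 ≤ W1 x := by
    unfold W1
    omega
  have g2 : x.w21 + x.d23 ≤ W2 x := by
    unfold W2
    omega
  have g3 : x.u3 + x.d31 + x.d32 ≤ W3 x := by
    unfold W3
    omega
  have hX : X0 x ≤ 8 + ((x.d12 : ℤ) + x.d21 + x.d13 + x.d31 + x.d23 + x.d32) + x.e12 + x.k13 +
      x.k23 := by
    have h1 := hT.L
    have h2 := hT.x13
    have h3 := hT.x23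
    have h4 := hB.x12
    unfold X0
    omega
  have hsp := hT.sp
  have w13 : 2 ≤ x.w13 := by omega
  have w23 : 2 ≤ x.w23 := by omega
  have w31 : 1 ≤ x.w31 := by omega
  have w32 : 1 ≤ x.w32 := by omega
  have w12 : 2 ≤ x.w12 := by omega
  have a13 : 2 ≤ x.a13 := a_ge2 w13 w31 (e13.2.2.1 (by omega)) hB.a13 hB.b13
  have a23 : 2 ≤ x.a23 := a_ge2 w23 w32 (e23.2.2.1 (by omega)) hB.a23 hB.b23
  have ee : 1 ≤ x.e12 := e12.2.2.1 (by omega)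
  have a12 : 2 * ((x.d12 : ℤ) + x.d21) + (x.e12 : ℤ) * x.e12 + 8 ≤ 2 * (x.a12 : ℤ) + 3 * x.e12 := by
    have h1 := hB.a12
    have h2 : 2 * (x.d12 + x.d21) + x.e12 * x.e12 + 8 ≤ 2 * x.a12 + 3 * x.e12 := by omega
    exact_mod_cast h2
  have hV : 4 + (x.k13 : ℤ) + x.k23 + x.e12 + x.a12 + x.a13 + x.a23 ≤
      (((W1 x : ℤ) + W2 x + W3 x) - s) + 1 + x.a12 + x.a13 + x.a23 + x.bk := by
    omega
  have hg := hN (x.e12 : ℤ) ((x.d12 : ℤ) + x.d21) x.k13 x.k23 x.a12 x.a13 x.a23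
    (3 - (((W1 x : ℤ) + W2 x + W3 x) - s) + X0 x)
    ((((W1 x : ℤ) + W2 x + W3 x) - s) + 1 + x.a12 + x.a13 + x.a23 + x.bk)
    (by omega) (by omega) (by omega) (by omega) (by omega) (by omega) (by omega) a12
    (ksq c13.1 hB.b13) (ksq c23.1 hB.b23) (by omega) hV
  exact fin_zv hNnf hNstar hNzv x s hB hY hg (by omega)

end Pool.Agent.Helper2.W4
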