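import Pool.Agent.Helper2.W4.M_F2

set_option autoImplicit false

namespace Pool.Agent.Helper2.W4

open Pool.Agent.Helper21.W4 Finset

theorem hF3 : StF3 := by
  intro hNmono hNnf hNstar hNzv hN x s hB hY hT hs
  have hu1 := hT.u1
  have hu2 := hT.u2
  have hu3 := hT.u3
  have b12 := hB.d12
  have b13 := hB.d13
  have b21 := hB.d21
  have b23 := hB.d23
  have b31 := hB.d31
  have b32 := hB.d32
  have c12 := hB.k12
  have c13 := hB.k13
  have c23 := hB.k23
  have e12 := hB.e12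
  have e13 := hB.e13
  have e23 := hB.e23
  have g1 : x.w13 + x.d12 ≤ W1 x := by
    unfold W1
    omega
  have g2 : x.u2 + x.d21 + x.d23 ≤ W2 x := by
    unfold W2
    omega
  have g3 : x.w31 + x.d32 ≤ W3 x := by
    unfold W3
    omega
  have hX : X0 x ≤ 8 + ((x.d12 : ℤ) + x.d21 + x.d13 + x.d31 + x.d23 + x.d32) + x.e12 + x.k13 +
      x.k23 := by
    have h1 := hT.L
    have h2 := hT.x13
    have h3 := hT.x23
    have h4 := hB.x12
    unfold X0
    omega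
  have hsp := hT.sp
  have ee : 1 ≤ x.e13 := e13.2.2.1 (by omega)
  have a13 : 2 * ((x.d13 : ℤ) + x.d31) + (x.e13 : ℤ) * x.e13 + 6 ≤ 2 * (x.a13 : ℤ) + 3 * x.e13 := by
    have h1 := hB.a13
    have h2 : 2 * (x.d13 + x.d31) + x.e13 * x.e13 + 6 ≤ 2 * x.a13 + 3 * x.e13 := by omega
    exact_mod_cast h2
  have b12' : (x.e12 : ℤ) * x.e12 + x.e12 ≤ 2 * (x.a12 : ℤ) := by
    have := hB.b12
    exact_mod_cast this
  have hV : 5 + (x.k23 : ℤ) + x.e13 + x.a12 + x.a13 + x.a23 ≤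
      (((W1 x : ℤ) + W2 x + W3 x) - s) + 1 + x.a12 + x.a13 + x.a23 + x.bk := by
    omega
  have hg := hN (x.e13 : ℤ) ((x.d13 : ℤ) + x.d31) x.e12 x.k23 x.a13 x.a12 x.a23
    (3 - (((W1 x : ℤ) + W2 x + W3 x) - s) + X0 x)
    ((((W1 x : ℤ) + W2 x + W3 x) - s) + 1 + x.a12 + x.a13 + x.a23 + x.bk)
    (by omega) (by omega) (by omega) (by omega) (by omega) a13 b12'
    (ksq c23.1 hB.b23) (by omega) hV
  exact fin_zv hNnf hNstar hNzv x s hB hY hg (by omega)

end Pool.Agent.Helper2.W4
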