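import Pool.Agent.Helper21.W4.St1

set_option autoImplicit false

namespace Pool.Agent.Helper2.W4

open Pool.Agent.Helper21.W4 Finset

theorem sq_le {B : ℕ} {s : ℕ → ℕ} (h : Sq B s) : ∀ {a b : ℕ}, a ≤ b → s b ≤ s a := by
  intro a b hab
  exact antitone_nat_of_succ_le h.anti hab

theorem hG : StG := by
  intro B s t hs ht hc p q hp hq hpq
  have hpt : p < t 1 := (hc p 1).1 (by omega)
  have hs1 : s p ≤ s 1 := sq_le hs hp
  have h1 : ((cor B s).filter (fun x => p ≤ x)).card ≤ t 1 - p := by
    have : (cor B s).filter (fun x => p ≤ x) ⊆ Finset.Ico p (t 1) := by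
      intro x hx
      simp only [cor, Finset.mem_filter, Finset.mem_range] at hx
      rw [Finset.mem_Ico]
      exact ⟨hx.2, (hc x 1).1 (by omega)⟩
    have h2 := Finset.card_le_card this
    rwa [Nat.card_Ico] at h2
  have h2 : ((cor B s).filter (fun x => ¬ p ≤ x)).card ≤ s 1 - (q + 1) := by
    have h3 : ((cor B s).filter (fun x => ¬ p ≤ x)).card ≤ (Finset.Ico (q + 1) (s 1)).card := by
      refine Finset.card_le_card_of_injOn (fun x => s x - 1) ?_ ?_
      · intro x hx
        have hx := Finset.mem_coe.1 hx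
        simp only [cor, Finset.mem_filter, Finset.mem_range] at hx
        rw [Finset.mem_coe, Finset.mem_Ico]
        obtain ⟨⟨_, hx1, hx2, hx3⟩, hx4⟩ := hx
        have h4 : s p ≤ s (x + 1) := sq_le hs (by omega)
        have h5 : s x ≤ s 1 := sq_le hs hx1
        show q + 1 ≤ s x - 1 ∧ s x - 1 < s 1
        omega
      · intro x hx y hy hxy
        have hx := Finset.mem_coe.1 hx
        have hy := Finset.mem_coe.1 hy
        simp only [cor, Finset.mem_filter, Finset.mem_range] at hx hy
        have hxy : s x - 1 = s y - 1 := hxy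
        obtain ⟨⟨_, hx1, hx2, hx3⟩, hx4⟩ := hx
        obtain ⟨⟨_, hy1, hy2, hy3⟩, hy4⟩ := hy
        rcases lt_trichotomy x y with h | h | h
        · have : s y ≤ s (x + 1) := sq_le hs h
          omega
        · exact h
        · have : s x ≤ s (y + 1) := sq_le hs h
          omega
    rwa [Nat.card_Ico] at h3
  have h3 := Finset.card_filter_add_card_filter_not (s := cor B s) (fun x => p ≤ x)
  omega

end Pool.Agent.Helper2.W4
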