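import Pool.Agent.Helper21.W4.St2

set_option autoImplicit false

namespace Pool.Agent.Helper2.W4

open Pool.Agent.Helper21.W4 Finset

theorem sq_le' {B : ℕ} {s : ℕ → ℕ} (h : Sq B s) : ∀ {a b : ℕ}, a ≤ b → s b ≤ s a := by
  intro a b hab
  exact antitone_nat_of_succ_le h.anti hab

theorem hOc : StOc := by
  intro B s t hs ht hc h2
  have ht1 : t 1 ≤ t 0 := ht.anti 0
  set O := (range B).filter (fun p => 1 ≤ p ∧ s p < s (p - 1) ∧ 1 ≤ s p) with hO
  have hoc : oc B s 1 1 = O.card := rfl
  have hBs : ∀ x, 1 ≤ s x → x + 1 < B := by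
    intro x hx
    by_contra h
    have := hs.fin x (by omega)
    omega
  -- the corners whose successor is counted
  set C := (cor B s).filter (fun x => 1 ≤ s (x + 1)) with hC
  have hCim : C.image (fun x => x + 1) ⊆ O.filter (fun x => 2 ≤ x) := by
    intro y hy
    rw [Finset.mem_image] at hy
    obtain ⟨x, hx, rfl⟩ := hy
    simp only [hC, cor, Finset.mem_filter, Finset.mem_range] at hx
    obtain ⟨⟨_, hx1, hx2, hx3⟩, hx4⟩ := hx
    have := hBs (x + 1) hx4
    simp only [hO, Finset.mem_filter, Finset.mem_range, Nat.add_sub_cancel]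
    omega
  have hCc : C.card ≤ (O.filter (fun x => 2 ≤ x)).card := by
    have h3 := Finset.card_le_card hCim
    rwa [Finset.card_image_of_injective _ (add_left_injective 1)] at h3
  have hO1 : (O.filter (fun x => ¬ 2 ≤ x)).card = if s 1 < s 0 then 1 else 0 := by
    split_ifs with h
    · have : O.filter (fun x => ¬ 2 ≤ x) = {1} := by
        ext x
        have := hBs 1 (by omega)
        simp only [hO, Finset.mem_filter, Finset.mem_range, Finset.mem_singleton]
        constructor
        · intro hx
          omega
        · rintro rfl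
          have h0 : (1 : ℕ) - 1 = 0 := rfl
          rw [h0]
          omega
      rw [this, Finset.card_singleton]
    · rw [Finset.card_eq_zero, Finset.filter_eq_empty_iff]
      intro x hx hx2
      simp only [hO, Finset.mem_filter, Finset.mem_range] at hx
      have : x = 1 := by omega
      subst this
      have h0 : (1 : ℕ) - 1 = 0 := rfl
      rw [h0] at hx
      omega
  have hOs := Finset.card_filter_add_card_filter_not (s := O) (fun x => 2 ≤ x)
  have hN : ((cor B s).filter (fun x => ¬ 1 ≤ s (x + 1))).card + (if t 1 < t 0 then 1 else 0) ≤ 1 := by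
    have hmem : ∀ x ∈ (cor B s).filter (fun x => ¬ 1 ≤ s (x + 1)), x + 1 = t 0 ∧ x < t 1 := by
      intro x hx
      simp only [cor, Finset.mem_filter, Finset.mem_range] at hx
      obtain ⟨⟨_, hx1, hx2, hx3⟩, hx4⟩ := hx
      have h5 : x < t 1 := (hc x 1).1 (by omega)
      have h6 : ¬ x + 1 < t 0 := fun h => hx4 ((hc (x + 1) 0).2 h)
      omega
    split_ifs with h
    · have : (cor B s).filter (fun x => ¬ 1 ≤ s (x + 1)) = ∅ := by
        rw [Finset.eq_empty_iff_forall_notMem]
        intro x hx
        have := hmem x hx
        omega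
      rw [this]
      simp
    · have : ((cor B s).filter (fun x => ¬ 1 ≤ s (x + 1))).card ≤ 1 := by
        rw [Finset.card_le_one]
        intro x hx y hy
        have h1 := hmem x hx
        have h2 := hmem y hy
        omega
      omega
  have hCs := Finset.card_filter_add_card_filter_not (s := cor B s) (fun x => 1 ≤ s (x + 1))
  rw [← hC] at hCs
  rw [hO1] at hOs
  rw [hoc]
  omega

end Pool.Agent.Helper2.W4
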