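import Pool.Agent.Helper21.W4.St2

set_option autoImplicit false

namespace Pool.Agent.Helper2.W4

open Pool.Agent.Helper21.W4 Finset

theorem hUa : StUa := by
  intro hAr B h1 h2 h3 c1 c2 c3 hC h11 hc3 hm1 hm2
  have hpp : PP0 B h1 h2 h3 := ⟨hC.pp.e12, hC.pp.e13, hC.pp.bd⟩
  obtain ⟨a1, a2, _, _⟩ := hAr B h1 h2 h3 hpp
  have anti1 : ∀ {a b : ℕ} (r : ℕ), a ≤ b → h1 b r ≤ h1 a r := fun r hab =>
    antitone_nat_of_succ_le (f := fun q => h1 q r) (fun q => a1.a1 q r) hab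
  have anti2 : ∀ {a b : ℕ} (r : ℕ), a ≤ b → h2 b r ≤ h2 a r := fun r hab =>
    antitone_nat_of_succ_le (f := fun q => h2 q r) (fun q => a2.a1 q r) hab
  have h22 : 2 ≤ h2 1 1 := (hC.pp.e12 1 1 1).1 h11
  unfold unc kk
  congr 1
  refine Finset.filter_congr ?_
  intro p hp
  simp only [cor, Finset.mem_filter, Finset.mem_range] at hp
  obtain ⟨_, hp1, hp2, _⟩ := hp
  show h3 p (h2 p 0 - 1) = 1 ↔ h1 1 1 - 1 < p ∨ h2 1 1 - 1 < h2 p 0 - 1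
  obtain ⟨q, hq⟩ : ∃ q, h2 p 0 = q + 1 := ⟨h2 p 0 - 1, by omega⟩
  rw [hq, Nat.add_sub_cancel]
  have hqp : q < h2 p 0 := by omega
  have f1 : p < h1 q 0 := (hC.pp.e12 p q 0).2 hqp
  have f2 : h1 q 0 ≤ h1 1 0 := anti1 0 (by omega)
  have f3 : 0 < h3 p q := (hC.pp.e13 p q 0).1 f1
  have f4 := hC.pp.e13 p q 1
  have f5 := hC.s1 p q 1
  have f6 := hC.pp.e13 p 0 1
  have f7 := hC.pp.e13 0 q 1
  have f7' := hC.pp.e12 0 q 1
  have f8 : h2 p 0 ≤ h2 1 0 := anti2 0 hp1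
  have f9 : 1 < h3 p q ↔ p < h1 0 1 ∧ q < h2 0 1 := by
    rw [← f4, f5, ← f6, ← f7, f7']
    constructor
    · rintro ⟨_, ha, hb, _⟩
      exact ⟨ha, hb⟩
    · rintro ⟨ha, hb⟩
      exact ⟨hqp, ha, hb, by omega⟩
  omega

end Pool.Agent.Helper2.W4
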