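import Pool.Agent.Helper21.W4.St2

set_option autoImplicit false

namespace Pool.Agent.Helper2.W4

open Pool.Agent.Helper21.W4 Finset

theorem hUb : StUb := by
  intro hAr hMUt B h1 h2 h3 h hC hh h11 hm1
  have hpp : PP0 B h1 h2 h3 := ⟨hC.pp.e12, hC.pp.e13, hC.pp.bd⟩
  obtain ⟨a1, a2, _, _⟩ := hAr B h1 h2 h3 hpp
  have anti1 : ∀ {a b : ℕ} (r : ℕ), a ≤ b → h1 r b ≤ h1 r a := fun r hab =>
    antitone_nat_of_succ_le (f := fun q => h1 r q) (fun q => a1.a2 r q) hab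
  obtain ⟨m1, m2, m3, m4⟩ := hMUt B h1 h2 h3 h hC hh
  unfold unc kk
  congr 1
  refine Finset.filter_congr ?_
  intro p hp
  simp only [cor, Finset.mem_filter, Finset.mem_range] at hp
  obtain ⟨_, hp1, hp2, _⟩ := hp
  show h2 p (h3 p 0 - 1) = 1 ↔ h1 1 1 - 1 < p ∨ h3 1 1 - 1 < h3 p 0 - 1
  obtain ⟨r, hr⟩ : ∃ r, h3 p 0 = r + 1 := ⟨h3 p 0 - 1, by omega⟩
  rw [hr, Nat.add_sub_cancel]
  have hrp : r < h3 p 0 := by omega
  have f1 : p < h1 0 r := (hC.pp.e13 p 0 r).2 hrp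
  have f2 : h1 0 r ≤ h1 0 1 := anti1 0 (by omega)
  have f3 : 0 < h2 p r := (hC.pp.e12 p 0 r).1 f1
  have f4 := hC.pp.e12 p 1 r
  have f5 := hC.s1 p 1 r
  have f6 := hC.pp.e12 p 1 0
  have f9 : 1 < h2 p r ↔ p < h1 1 0 ∧ r < h := by
    rw [← f4, f5, ← f6]
    constructor
    · rintro ⟨ha, _, _, hb⟩
      refine ⟨ha, ?_⟩
      by_contra hc
      exact hb ⟨hp1, le_refl 1, by omega⟩
    · rintro ⟨ha, hb⟩
      exact ⟨ha, hrp, by omega, by omega⟩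
  omega

end Pool.Agent.Helper2.W4
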